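import Mathlib
import Pool.Agent.Helper78.ST.Greedy

/-!
PS-4: the two bins lemma without any bound for the number of elements.

`A` is a finite set of naturals with positive monotone weights, no partial sum over a set
`J ⊆ A_{≥ e}` is within `w e / 2 - c` of `ℓ / 2`, and `v(A) ≥ ℓ + 20 c`.  Either the large elements
(`w > 5 c`) already give the splitting of `A_{> q}` of the greedy lemma, or the greedy splitting of
the large elements can be filled up with small elements to two disjoint sets of weight `ℓ / 2`.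
-/

namespace Pool.Agent.Helper78.PS

open Finset

/-- Filling up: small weights reach every target up to `d`. -/
theorem fill (w : ℕ → ℝ) (d : ℝ) (C : Finset ℕ) (hd : 0 ≤ d) (hC : ∀ a ∈ C, w a ≤ d) (R : ℝ)
    (hR0 : 0 ≤ R) (hR : R ≤ ∑ a ∈ C, w a) :
    ∃ K ⊆ C, R - d ≤ ∑ a ∈ K, w a ∧ ∑ a ∈ K, w a ≤ R := by
  classical
  induction C using Finset.induction_on with
  | empty =>
    refine ⟨∅, by simp, ?_, ?_⟩
    · simp at hR ⊢; linarith
    · simp; exact hR0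
  | insert a s has ih =>
    rcases le_total R (∑ b ∈ s, w b) with h | h
    · obtain ⟨K, hK, h1, h2⟩ := ih (fun b hb => hC b (mem_insert_of_mem hb)) h
      exact ⟨K, hK.trans (subset_insert _ _), h1, h2⟩
    · rw [sum_insert has] at hR
      have := hC a (mem_insert_self _ _)
      exact ⟨s, subset_insert _ _, by linarith, h⟩

/-- The greedy splitting of the large elements when their total weight is below `ℓ - 2 c`. -/
theorem bins (A B : Finset ℕ) (w : ℕ → ℝ) (ℓ c : ℝ) (hBA : B ⊆ A)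
    (hpos : ∀ e ∈ A, 0 < w e) (hbig : ∀ e ∈ B, 5 * c < w e) (hc : 0 < c) (hℓ : 0 ≤ ℓ)
    (hNS : ∀ e ∈ A, ∀ J ⊆ A.filter (fun a => e ≤ a), w e / 2 - c ≤ |ℓ / 2 - ∑ a ∈ J, w a|)
    (hB : ∑ a ∈ B, w a < ℓ - 2 * c) (s : Finset ℕ) (hs : s ⊆ B) :
    ∃ J₁ J₂ : Finset ℕ, Disjoint J₁ J₂ ∧ J₁ ∪ J₂ = s ∧
      ∑ a ∈ J₁, w a ≤ ℓ / 2 ∧ ∑ a ∈ J₂, w a ≤ ℓ / 2 := by
  induction s using Finset.induction_on_min with
  | empty =>
    refine ⟨∅, ∅, by simp, by simp, ?_, ?_⟩ <;> rw [sum_empty] <;> linarith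
  | insert m s hm ih =>
    obtain ⟨J₁, J₂, hd, hu, h1, h2⟩ := ih ((subset_insert _ _).trans hs)
    have hmB : m ∈ B := hs (mem_insert_self _ _)
    have hms : m ∉ s := fun h => lt_irrefl _ (hm m h)
    have hsum : ∑ a ∈ insert m s, w a < ℓ - 2 * c := by
      refine lt_of_le_of_lt (sum_le_sum_of_subset_of_nonneg hs ?_) hB
      intro i hi _
      exact (hpos i (hBA hi)).le
    have step : ∀ K₁ K₂ : Finset ℕ, Disjoint K₁ K₂ → K₁ ∪ K₂ = s →
        ∑ a ∈ K₁, w a ≤ ∑ a ∈ K₂, w a →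
        Disjoint (insert m K₁) K₂ ∧ insert m K₁ ∪ K₂ = insert m s ∧
          ∑ a ∈ insert m K₁, w a ≤ ℓ / 2 := by
      intro K₁ K₂ hK hKu hle
      have hmK : m ∉ K₁ := fun h => hms (hKu ▸ mem_union_left _ h)
      have hmK2 : m ∉ K₂ := fun h => hms (hKu ▸ mem_union_right _ h)
      refine ⟨?_, by rw [insert_union, hKu], ?_⟩
      · rw [disjoint_insert_left]
        exact ⟨hmK2, hK⟩
      have hsub : insert m K₁ ⊆ A.filter (fun a => m ≤ a) := by
        intro a ha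
        rw [mem_insert] at ha
        rw [mem_filter]
        rcases ha with rfl | ha
        · exact ⟨hBA hmB, le_refl _⟩
        · have has : a ∈ s := hKu ▸ mem_union_left _ ha
          exact ⟨hBA (hs (mem_insert_of_mem has)), (hm a has).le⟩
      have hns := hNS m (hBA hmB) _ hsub
      rw [sum_insert hms, ← hKu, sum_union hK] at hsum
      rw [sum_insert hmK] at hns ⊢
      have hb := hbig m hmB
      rcases le_abs.1 hns with h | h
      · linarith
      · exfalso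
        linarith
    rcases le_total (∑ a ∈ J₁, w a) (∑ a ∈ J₂, w a) with hle | hle
    · obtain ⟨a1, a2, a3⟩ := step J₁ J₂ hd hu hle
      exact ⟨insert m J₁, J₂, a1, a2, a3, h2⟩
    · obtain ⟨a1, a2, a3⟩ := step J₂ J₁ hd.symm (by rw [union_comm]; exact hu) hle
      exact ⟨insert m J₂, J₁, a1, a2, a3, h1⟩

/-- The case of large total weight of the large elements. -/
theorem split_large (A : Finset ℕ) (w : ℕ → ℝ) (ℓ c : ℝ)
    (hpos : ∀ e ∈ A, 0 < w e)
    (hmono : ∀ e ∈ A, ∀ f ∈ A, e ≤ f → w e ≤ w f)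
    (hsmall : ∀ e ∈ A, w e ≤ ℓ)
    (hNS : ∀ e ∈ A, ∀ J ⊆ A.filter (fun a => e ≤ a), w e / 2 - c ≤ |ℓ / 2 - ∑ a ∈ J, w a|)
    (hc : 0 < c) (hℓ : 2 * c < ℓ)
    (hB : ℓ - 2 * c ≤ ∑ a ∈ A.filter (fun a => 5 * c < w a), w a) :
    ∃ q ∈ A, 5 * c < w q ∧ ∃ J₁ J₂ : Finset ℕ, Disjoint J₁ J₂ ∧
      J₁ ∪ J₂ = A.filter (fun a => q < a) ∧
      |∑ a ∈ J₁, w a - (ℓ - w q) / 2| ≤ c ∧ |∑ a ∈ J₂, w a - (ℓ - w q) / 2| ≤ c := by
  set B := A.filter (fun a => 5 * c < w a) with hBdef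
  have hBne : B.Nonempty := by
    rw [nonempty_iff_ne_empty]
    intro h
    rw [h, sum_empty] at hB
    linarith
  set G := B.filter (fun q => ℓ + 3 * c ≤ ∑ a ∈ A.filter (fun a => q ≤ a), w a + w q) with hG
  have hGne : G.Nonempty := by
    refine ⟨B.min' hBne, ?_⟩
    rw [hG, mem_filter]
    refine ⟨min'_mem _ _, ?_⟩
    have h1 : ∑ a ∈ B, w a ≤ ∑ a ∈ A.filter (fun a => B.min' hBne ≤ a), w a := by
      apply sum_le_sum_of_subset_of_nonneg
      · intro a ha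
        rw [mem_filter]
        exact ⟨(mem_filter.1 ha).1, min'_le _ _ ha⟩
      · intro i hi _
        exact (hpos i (mem_filter.1 hi).1).le
    have h2 : 5 * c < w (B.min' hBne) := (mem_filter.1 (min'_mem B hBne)).2
    linarith
  set q := G.max' hGne with hq
  have hqG : q ∈ G := max'_mem _ _
  have hqB : q ∈ B := (mem_filter.1 hqG).1
  have hqA : q ∈ A := (mem_filter.1 hqB).1
  have hq5 : 5 * c < w q := (mem_filter.1 hqB).2
  have hq1 := (mem_filter.1 hqG).2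
  have hmono' : ∀ e ∈ A, q < e → w q ≤ w e := fun e he hqe => hmono q hqA e he hqe.le
  have hbig : ∀ e ∈ A, q < e → 5 * c < w e := fun e he hqe => lt_of_lt_of_le hq5 (hmono' e he hqe)
  have hSig : ∀ e ∈ A, q < e → ∑ a ∈ A.filter (fun a => e ≤ a), w a < ℓ - w e + 3 * c := by
    intro e he hqe
    by_contra hcon
    have : e ∈ G := by
      rw [hG, mem_filter, hBdef, mem_filter]
      exact ⟨⟨he, hbig e he hqe⟩, by linarith⟩
    exact absurd (le_max' G e this) (not_le.2 hqe)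
  obtain ⟨J₁, J₂, hd, hu, h1, h2⟩ := Pool.Agent.Helper78.ST.greedy_bins A w ℓ c q hmono'
    (hsmall q hqA) hc.le hNS hbig hSig
    (A.sup id + 1) (fun e he => Nat.lt_succ_of_le (le_sup (f := id) he)) (A.sup id + 1 - q)
    (by have := le_sup (f := id) hqA; simp only [id] at this; omega) (by omega)
  have hqM : q ≤ A.sup id := le_sup (f := id) hqA
  have hu' : J₁ ∪ J₂ = A.filter (fun a => q < a) := by
    rw [hu]
    ext a
    simp only [mem_filter]
    constructor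
    · rintro ⟨h, _, h''⟩
      exact ⟨h, h''⟩
    · rintro ⟨h, h''⟩
      exact ⟨h, by omega, h''⟩
  refine ⟨q, hqA, hq5, J₁, J₂, hd, hu', ?_⟩
  -- total weight from `q` on
  have htot : ℓ + 3 * c - 2 * w q ≤ ∑ a ∈ J₁, w a + ∑ a ∈ J₂, w a := by
    rw [← sum_union hd, hu']
    have h4 : A.filter (fun a => q ≤ a) = insert q (A.filter (fun a => q < a)) := by
      ext a
      simp only [mem_filter, mem_insert]
      constructor
      · rintro ⟨h, h'⟩
        rcases h'.eq_or_lt with h'' | h''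
        · exact Or.inl h''.symm
        · exact Or.inr ⟨h, h''⟩
      · rintro (rfl | ⟨h, h'⟩)
        · exact ⟨hqA, le_refl _⟩
        · exact ⟨h, h'.le⟩
    have h5 : q ∉ A.filter (fun a => q < a) := by simp
    rw [h4, sum_insert h5] at hq1
    linarith
  have key : ∀ K : Finset ℕ, K ⊆ A.filter (fun a => q < a) →
      w q / 2 - c ≤ |ℓ / 2 - (w q + ∑ a ∈ K, w a)| := by
    intro K hK
    have hqK : q ∉ K := fun h => by simpa using hK h
    have := hNS q hqA (insert q K) (by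
      intro a ha
      rw [mem_insert] at ha
      rw [mem_filter]
      rcases ha with rfl | ha
      · exact ⟨hqA, le_refl _⟩
      · have := mem_filter.1 (hK ha)
        exact ⟨this.1, this.2.le⟩)
    rwa [sum_insert hqK] at this
  have k1 := key J₁ (hu' ▸ subset_union_left)
  have k2 := key J₂ (hu' ▸ subset_union_right)
  rw [abs_le, abs_le]
  refine ⟨⟨?_, by linarith⟩, ⟨?_, by linarith⟩⟩
  · rcases le_abs.1 k1 with h | h
    · exfalso; linarith
    · linarith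
  · rcases le_abs.1 k2 with h | h
    · exfalso; linarith
    · linarith

end Pool.Agent.Helper78.PS

namespace Pool.Agent.Helper58.PS

open Finset

/-- PS-4: two bins -/
theorem split2 (A : Finset ℕ) (w : ℕ → ℝ) (ℓ c : ℝ)
    (hpos : ∀ e ∈ A, 0 < w e)
    (hmono : ∀ e ∈ A, ∀ f ∈ A, e ≤ f → w e ≤ w f)
    (hsmall : ∀ e ∈ A, w e ≤ ℓ)
    (hNS : ∀ e ∈ A, ∀ J ⊆ A.filter (fun a => e ≤ a), w e / 2 - c ≤ |ℓ / 2 - ∑ a ∈ J, w a|)
    (hc : 0 < c) (hv : ℓ + 20 * c ≤ ∑ a ∈ A, w a) (hℓ : 20 * c < ℓ) :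
    (∃ q ∈ A, 5 * c < w q ∧ ∃ J₁ J₂ : Finset ℕ, Disjoint J₁ J₂ ∧
      J₁ ∪ J₂ = A.filter (fun a => q < a) ∧
      |∑ a ∈ J₁, w a - (ℓ - w q) / 2| ≤ c ∧ |∑ a ∈ J₂, w a - (ℓ - w q) / 2| ≤ c) ∨
    (∃ J₁ J₂ : Finset ℕ, J₁ ⊆ A ∧ J₂ ⊆ A ∧ Disjoint J₁ J₂ ∧
      |∑ a ∈ J₁, w a - ℓ / 2| ≤ 6 * c ∧ |∑ a ∈ J₂, w a - ℓ / 2| ≤ 6 * c) := by
  rcases le_or_gt (ℓ - 2 * c) (∑ a ∈ A.filter (fun a => 5 * c < w a), w a) with hB | hB
  · exact Or.inl (Pool.Agent.Helper78.PS.split_large A w ℓ c hpos hmono hsmall hNS hc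
      (by linarith) hB)
  right
  set B := A.filter (fun a => 5 * c < w a) with hBdef
  have hBA : B ⊆ A := filter_subset _ _
  obtain ⟨J₁, J₂, hd, hu, h1, h2⟩ := Pool.Agent.Helper78.PS.bins A B w ℓ c hBA hpos
    (fun e he => (mem_filter.1 he).2) hc (by linarith) hNS hB B (Subset.refl _)
  have hsplit : ∑ a ∈ A \ B, w a + ∑ a ∈ B, w a = ∑ a ∈ A, w a := sum_sdiff hBA
  have hBsum : ∑ a ∈ J₁, w a + ∑ a ∈ J₂, w a = ∑ a ∈ B, w a := by
    rw [← sum_union hd, hu]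
  have hsm : ∀ a ∈ A \ B, w a ≤ 5 * c := by
    intro a ha
    rw [mem_sdiff, hBdef, mem_filter] at ha
    by_contra h
    exact ha.2 ⟨ha.1, not_le.1 h⟩
  obtain ⟨K₁, hK1, a1, a2⟩ := Pool.Agent.Helper78.PS.fill w (5 * c) (A \ B) (by linarith) hsm
    (ℓ / 2 - ∑ a ∈ J₁, w a) (by linarith) (by linarith)
  have hsplit2 : ∑ a ∈ (A \ B) \ K₁, w a + ∑ a ∈ K₁, w a = ∑ a ∈ A \ B, w a := sum_sdiff hK1
  obtain ⟨K₂, hK2, b1, b2⟩ := Pool.Agent.Helper78.PS.fill w (5 * c) ((A \ B) \ K₁) (by linarith)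
    (fun a ha => hsm a (mem_sdiff.1 ha).1)
    (ℓ / 2 - ∑ a ∈ J₂, w a) (by linarith) (by linarith)
  have hJ1 : J₁ ⊆ B := hu ▸ subset_union_left
  have hJ2 : J₂ ⊆ B := hu ▸ subset_union_right
  have d1 : Disjoint J₁ K₁ := by
    rw [disjoint_left]
    intro a ha ha'
    exact (mem_sdiff.1 (hK1 ha')).2 (hJ1 ha)
  have d2 : Disjoint J₂ K₂ := by
    rw [disjoint_left]
    intro a ha ha'
    exact (mem_sdiff.1 (mem_sdiff.1 (hK2 ha')).1).2 (hJ2 ha)
  refine ⟨J₁ ∪ K₁, J₂ ∪ K₂, ?_, ?_, ?_, ?_, ?_⟩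
  · exact union_subset (hJ1.trans hBA) (hK1.trans sdiff_subset)
  · exact union_subset (hJ2.trans hBA) ((hK2.trans sdiff_subset).trans sdiff_subset)
  · rw [disjoint_left]
    intro a ha ha'
    rw [mem_union] at ha ha'
    rcases ha with ha | ha <;> rcases ha' with ha' | ha'
    · exact disjoint_left.1 hd ha ha'
    · exact (mem_sdiff.1 (mem_sdiff.1 (hK2 ha')).1).2 (hJ1 ha)
    · exact (mem_sdiff.1 (hK1 ha)).2 (hJ2 ha')
    · exact (mem_sdiff.1 (hK2 ha')).2 ha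
  · rw [sum_union d1, abs_le]
    constructor <;> linarith
  · rw [sum_union d2, abs_le]
    constructor <;> linarith

end Pool.Agent.Helper58.PS
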